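import Pool.Agent.helper26.Fin.G2s

/-!
# G2n: commuting pairs in `𝔭` for `G₂/SU(2)`

Normal form of commuting pairs and the conditions `kcomm`, `free`, `n1` of `NonDeg`.
-/

noncomputable section

namespace Pool.Agent.Helper93.Fin.G2

namespace G2n

open scoped Quaternion Matrix

/-! ## symmetric traceless `3 × 3` matrices and the cross product -/

section mat

variable {S T : Matrix (Fin 3) (Fin 3) ℝ}

theorem mulVec3 (S : Matrix (Fin 3) (Fin 3) ℝ) (x : Fin 3 → ℝ) :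
    S *ᵥ x = ![S 0 0 * x 0 + S 0 1 * x 1 + S 0 2 * x 2,
      S 1 0 * x 0 + S 1 1 * x 1 + S 1 2 * x 2,
      S 2 0 * x 0 + S 2 1 * x 1 + S 2 2 * x 2] := by
  ext i
  fin_cases i <;> simp [Matrix.mulVec, dotProduct, Fin.sum_univ_three]

/-- `S (x × w) = -(Sx × w + x × Sw)` for symmetric traceless `S` -/
theorem cross_st (hS : S.IsSymm) (tS : S.trace = 0) (x w : Fin 3 → ℝ) :
    S *ᵥ (x ⨯₃ w) = -((S *ᵥ x) ⨯₃ w + x ⨯₃ (S *ᵥ w)) := by
  have h01 := hS.apply 0 1
  have h02 := hS.apply 0 2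
  have h12 := hS.apply 1 2
  have ht : S 2 2 = - S 0 0 - S 1 1 := by
    simp only [Matrix.trace, Fin.sum_univ_three, Matrix.diag_apply] at tS
    linarith
  rw [mulVec3, mulVec3, mulVec3]
  simp only [cross_apply]
  ext i
  fin_cases i <;> simp [h01, h02, h12, ht] <;> ring

theorem dot_symm (hS : S.IsSymm) (x w : Fin 3 → ℝ) : (S *ᵥ x) ⬝ᵥ w = x ⬝ᵥ (S *ᵥ w) := by
  have h01 := hS.apply 0 1
  have h02 := hS.apply 0 2
  have h12 := hS.apply 1 2
  rw [mulVec3, mulVec3]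
  simp [dotProduct, Fin.sum_univ_three, h01, h02, h12]
  ring

theorem dot_self_eq_zero3 {x : Fin 3 → ℝ} : x ⬝ᵥ x = 0 ↔ x = 0 := by
  constructor
  · intro h
    simp only [dotProduct, Fin.sum_univ_three] at h
    have h0 : x 0 = 0 := by nlinarith [mul_self_nonneg (x 0), mul_self_nonneg (x 1), mul_self_nonneg (x 2)]
    have h1 : x 1 = 0 := by nlinarith [mul_self_nonneg (x 0), mul_self_nonneg (x 1), mul_self_nonneg (x 2)]
    have h2 : x 2 = 0 := by nlinarith [mul_self_nonneg (x 0), mul_self_nonneg (x 1), mul_self_nonneg (x 2)]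
    ext i
    fin_cases i <;> simp [h0, h1, h2]
  · rintro rfl
    simp

/-- `|b|² z = ⟨b,z⟩ b + b × (z × b)` -/
theorem expand (b z : Fin 3 → ℝ) : (b ⬝ᵥ b) • z = (b ⬝ᵥ z) • b + b ⨯₃ (z ⨯₃ b) := by
  ext i
  fin_cases i <;> simp [cross_apply, dotProduct, Fin.sum_univ_three] <;> ring

/-- a matrix that kills `b` and all `b × w` is zero -/
theorem eq_zero_of_kill {b : Fin 3 → ℝ} (hb : b ≠ 0) (h1 : S *ᵥ b = 0)
    (h2 : ∀ w, S *ᵥ (b ⨯₃ w) = 0) : S = 0 := by
  have hbb : b ⬝ᵥ b ≠ 0 := fun h => hb (dot_self_eq_zero3.mp h)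
  have h3 : ∀ z, S *ᵥ z = 0 := by
    intro z
    have h4 : S *ᵥ ((b ⬝ᵥ b) • z) = 0 := by
      rw [expand, Matrix.mulVec_add, Matrix.mulVec_smul, h1, h2]
      simp
    rw [Matrix.mulVec_smul] at h4
    exact (smul_eq_zero.mp h4).resolve_left hbb
  ext i j
  have h5 := congrFun (h3 (Pi.single j 1)) i
  simpa using h5

/-- symmetric traceless with two independent kernel vectors -/
theorem eq_zero_of_two (hS : S.IsSymm) (tS : S.trace = 0) {x w : Fin 3 → ℝ}
    (hxw : x ⨯₃ w ≠ 0) (hx : S *ᵥ x = 0) (hw : S *ᵥ w = 0) : S = 0 := by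
  apply eq_zero_of_kill hxw
  · rw [cross_st hS tS, hx, hw]
    simp
  · intro u
    have : (x ⨯₃ w) ⨯₃ u = (x ⬝ᵥ u) • w - (w ⬝ᵥ u) • x := by
      ext i
      fin_cases i <;> simp [cross_apply, dotProduct, Fin.sum_univ_three] <;> ring
    rw [this, Matrix.mulVec_sub, Matrix.mulVec_smul, Matrix.mulVec_smul, hx, hw]
    simp

/-- core of `n1` -/
theorem n1_mat (hS : S.IsSymm) (hT : T.IsSymm) (tS : S.trace = 0) (tT : T.trace = 0)
    (hST : S * T = T * S) {b c : Fin 3 → ℝ} (h1 : T *ᵥ b = S *ᵥ c)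
    (h2 : ∀ w, T *ᵥ (b ⨯₃ w) = S *ᵥ (c ⨯₃ w)) :
    (b = 0 ∧ c = 0) ∨ ∃ α β : ℝ, (α ≠ 0 ∨ β ≠ 0) ∧ α • S + β • T = 0 := by
  by_cases hS0 : S = 0
  · right
    exact ⟨1, 0, Or.inl one_ne_zero, by simp [hS0]⟩
  by_cases hy : b ⨯₃ c = 0
  · by_cases hb : b = 0
    · left
      refine ⟨hb, ?_⟩
      by_contra hc
      apply hS0
      subst hb
      apply eq_zero_of_kill hc
      · rw [← h1]; simp
      · intro w
        rw [← h2]; simp
    · right
      have hbb : b ⬝ᵥ b ≠ 0 := fun h => hb (dot_self_eq_zero3.mp h)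
      have hc : c = ((b ⬝ᵥ b)⁻¹ * (b ⬝ᵥ c)) • b := by
        have h3 := expand b c
        have h4 : c ⨯₃ b = 0 := by rw [← neg_cross]; simp [hy]
        rw [h4] at h3
        rw [mul_smul, ← (show (b ⬝ᵥ b) • c = (b ⬝ᵥ c) • b by simpa using h3), smul_smul,
          inv_mul_cancel₀ hbb, one_smul]
      set μ : ℝ := (b ⬝ᵥ b)⁻¹ * (b ⬝ᵥ c) with hμ
      refine ⟨-μ, 1, Or.inr one_ne_zero, ?_⟩
      apply eq_zero_of_kill hb
      · rw [Matrix.add_mulVec, Matrix.smul_mulVec, Matrix.smul_mulVec, h1, hc,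
          Matrix.mulVec_smul]
        simp
      · intro w
        have h5 := h2 w
        rw [hc, LinearMap.map_smul, LinearMap.smul_apply, Matrix.mulVec_smul] at h5
        rw [Matrix.add_mulVec, Matrix.smul_mulVec, Matrix.smul_mulVec, h5]
        simp
  · exfalso
    set y := b ⨯₃ c with hydef
    have hyy : y ⬝ᵥ y ≠ 0 := fun h => hy (dot_self_eq_zero3.mp h)
    have hSy : S *ᵥ y = 0 := by
      have h3 := h2 b
      rw [cross_self, Matrix.mulVec_zero] at h3
      rw [hydef, ← neg_cross, Matrix.mulVec_neg, ← h3, neg_zero]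
    have hTy : T *ᵥ y = 0 := by
      rw [hydef, h2, cross_self, Matrix.mulVec_zero]
    -- a matrix killing `y` kills `x × Rx` for `x ⊥ y`
    have key : ∀ (R R' : Matrix (Fin 3) (Fin 3) ℝ), R.IsSymm → R *ᵥ y = 0 → R' *ᵥ y = 0 →
        ∀ x, x ⬝ᵥ y = 0 → R' *ᵥ (x ⨯₃ (R *ᵥ x)) = 0 := by
      intro R R' hR h3 h4 x hx
      have h5 : (R *ᵥ x) ⬝ᵥ y = 0 := by rw [dot_symm hR, h3]; simp
      have h6 : y ⨯₃ ((x ⨯₃ (R *ᵥ x)) ⨯₃ y) = 0 := by
        have : (x ⨯₃ (R *ᵥ x)) ⨯₃ y = (x ⬝ᵥ y) • (R *ᵥ x) - ((R *ᵥ x) ⬝ᵥ y) • x := by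
          ext i
          fin_cases i <;> simp [cross_apply, dotProduct, Fin.sum_univ_three] <;> ring
        rw [this, hx, h5]
        simp
      have h7 := expand y (x ⨯₃ (R *ᵥ x))
      rw [h6, add_zero] at h7
      have h8 : R' *ᵥ ((y ⬝ᵥ y) • (x ⨯₃ (R *ᵥ x))) = 0 := by
        rw [h7, Matrix.mulVec_smul, h4, smul_zero]
      rw [Matrix.mulVec_smul] at h8
      exact (smul_eq_zero.mp h8).resolve_left hyy
    have hby : b ⬝ᵥ y = 0 := by
      rw [hydef]; simp [cross_apply, dotProduct, Fin.sum_univ_three]; ring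
    have hcy : c ⬝ᵥ y = 0 := by
      rw [hydef]; simp [cross_apply, dotProduct, Fin.sum_univ_three]; ring
    -- z := S S c = S T b
    set z := S *ᵥ (S *ᵥ c) with hz
    have hz2 : z = S *ᵥ (T *ᵥ b) := by rw [hz, h1]
    have hz3 : z = T *ᵥ (S *ᵥ b) := by
      rw [hz2, Matrix.mulVec_mulVec, hST, ← Matrix.mulVec_mulVec]
    have hcz : c ⨯₃ z = 0 := by
      have h3 := cross_st hS tS c (S *ᵥ c)
      rw [key S S hS hSy hSy c hcy, cross_self, zero_add] at h3
      rw [hz]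
      exact neg_eq_zero.mp h3.symm
    have hbz : b ⨯₃ z = 0 := by
      have h3 := cross_st hS tS b (T *ᵥ b)
      have h4 := cross_st hT tT b (S *ᵥ b)
      rw [key T S hT hTy hSy b hby, ← hz2] at h3
      rw [key S T hS hSy hTy b hby, ← hz3, ← neg_cross] at h4
      have h5 : b ⨯₃ z = -((S *ᵥ b) ⨯₃ (T *ᵥ b)) := by
        have := h3.symm
        rw [neg_eq_zero] at this
        rw [eq_neg_iff_add_eq_zero, add_comm]
        exact this
      have h6 : b ⨯₃ z = (S *ᵥ b) ⨯₃ (T *ᵥ b) := by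
        have := h4.symm
        rw [neg_eq_zero] at this
        rw [← sub_eq_zero, sub_eq_add_neg, add_comm]
        exact this
      have h7 : (2 : ℝ) • (b ⨯₃ z) = 0 := by
        rw [two_smul]
        nth_rewrite 1 [h5]
        rw [h6]
        simp
      exact (smul_eq_zero.mp h7).resolve_left two_ne_zero
    have hz0 : z = 0 := by
      have h3 : (y ⬝ᵥ y) • z = (y ⬝ᵥ z) • y + y ⨯₃ (z ⨯₃ y) := expand y z
      have h4 : y ⬝ᵥ z = 0 := by
        have h5 : y ⬝ᵥ z = b ⬝ᵥ (c ⨯₃ z) := by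
          rw [hydef]; simp [cross_apply, dotProduct, Fin.sum_univ_three]; ring
        rw [h5, hcz]; simp
      have h6 : z ⨯₃ y = 0 := by
        have h7 : z ⨯₃ y = (z ⬝ᵥ c) • b - (z ⬝ᵥ b) • c := by
          rw [hydef]
          ext i
          fin_cases i <;> simp [cross_apply, dotProduct, Fin.sum_univ_three] <;> ring
        have h8 : (z ⬝ᵥ c) • b = (b ⬝ᵥ c) • z := by
          have h9 : c ⨯₃ (b ⨯₃ z) = (z ⬝ᵥ c) • b - (b ⬝ᵥ c) • z := by
            ext i
            fin_cases i <;> simp [cross_apply, dotProduct, Fin.sum_univ_three] <;> ring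
          rw [hbz] at h9
          exact sub_eq_zero.mp (by simpa using h9.symm)
        have h10 : (z ⬝ᵥ b) • c = (b ⬝ᵥ c) • z := by
          have h9 : b ⨯₃ (c ⨯₃ z) = (z ⬝ᵥ b) • c - (b ⬝ᵥ c) • z := by
            ext i
            fin_cases i <;> simp [cross_apply, dotProduct, Fin.sum_univ_three] <;> ring
          rw [hcz] at h9
          exact sub_eq_zero.mp (by simpa using h9.symm)
        rw [h7, h8, h10, sub_self]
      rw [h4, h6] at h3
      have h11 : (y ⬝ᵥ y) • z = 0 := by simpa using h3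
      exact (smul_eq_zero.mp h11).resolve_left hyy
    have hSc : S *ᵥ c = 0 := by
      rw [← dot_self_eq_zero3, dot_symm hS, ← hz, hz0]
      simp
    apply hS0
    apply eq_zero_of_two hS tS (x := c) (w := y) _ hSc hSy
    intro h
    have h3 : (c ⨯₃ y) ⬝ᵥ (c ⨯₃ y) = (c ⬝ᵥ c) * (y ⬝ᵥ y) - (c ⬝ᵥ y) ^ 2 := by
      simp [cross_apply, dotProduct, Fin.sum_univ_three]; ring
    rw [h, hcy] at h3
    have h4 : c ⬝ᵥ c = 0 := by
      have : (c ⬝ᵥ c) * (y ⬝ᵥ y) = 0 := by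
        have : (0 : Fin 3 → ℝ) ⬝ᵥ 0 = 0 := by simp
        linarith
      exact (mul_eq_zero.mp this).resolve_right hyy
    have h5 : c = 0 := dot_self_eq_zero3.mp h4
    apply hy
    rw [hydef, h5]
    simp

end mat

/-! ## pairs of quaternionic triples -/

/-- the quaternionic content of `[pel P, pel P'] = 0` -/
structure Comm (P P' : Fin 3 → ℍ[ℝ]) : Prop where
  c1 : ∑ s, P s * e s = 0
  c2 : ∑ s, P' s * e s = 0
  sym : ∀ s t, (P s * star (P' t)).re = (P t * star (P' s)).re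
  wed : ∀ b : ℍ[ℝ], ∑ s, ((b * star (P' s)).re • P s - (b * star (P s)).re • P' s) = 0

theorem re_mul_comm' (x y : ℍ[ℝ]) : (x * y).re = (y * x).re := by
  simp only [Quaternion.re_mul]; ring

theorem star_mul_self_of_norm {g : ℍ[ℝ]} (hg : ‖g‖ = 1) : star g * g = 1 := by
  rw [Quaternion.star_mul_self, Quaternion.normSq_eq_norm_mul_self, hg]
  simp

theorem Comm.mul {P P' : Fin 3 → ℍ[ℝ]} (h : Comm P P') {g : ℍ[ℝ]} (hg : ‖g‖ = 1) :
    Comm (fun s => g * P s) (fun s => g * P' s) := by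
  have hgg := star_mul_self_of_norm hg
  refine ⟨?_, ?_, ?_, ?_⟩
  · simp only [mul_assoc, ← Finset.mul_sum, h.c1, mul_zero]
  · simp only [mul_assoc, ← Finset.mul_sum, h.c2, mul_zero]
  · have key : ∀ x y : ℍ[ℝ], (g * x * star (g * y)).re = (x * star y).re := by
      intro x y
      rw [star_mul, re_mul_comm', mul_assoc, ← mul_assoc (star g), hgg, one_mul, re_mul_comm']
    intro s t
    rw [key, key, h.sym]
  · intro b
    have key : ∀ y : ℍ[ℝ], (b * star (g * y)).re = ((star g * b) * star y).re := by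
      intro y
      rw [star_mul, ← mul_assoc, re_mul_comm', mul_assoc]
    have h1 := congrArg (fun z => g * z) (h.wed (star g * b))
    simp only [mul_zero, Finset.mul_sum, mul_sub, mul_smul_comm] at h1
    rw [← h1]
    refine Finset.sum_congr rfl fun s _ => ?_
    rw [key, key]

theorem exists_orth (P : Fin 3 → ℍ[ℝ]) : ∃ g : ℍ[ℝ], ‖g‖ = 1 ∧ ∀ s, (g * P s).re = 0 := by
  let f : ℍ[ℝ] →ₗ[ℝ] (Fin 3 → ℝ) :=
    { toFun := fun g s => (g * P s).re
      map_add' := by intro x y; ext s; simp [add_mul]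
      map_smul' := by intro c x; ext s; simp }
  have h1 : LinearMap.ker f ≠ ⊥ := by
    apply LinearMap.ker_ne_bot_of_finrank_lt
    rw [Quaternion.finrank_eq_four]
    simp
  obtain ⟨g, hg, hg0⟩ := Submodule.exists_mem_ne_zero_of_ne_bot h1
  refine ⟨‖g‖⁻¹ • g, ?_, ?_⟩
  · rw [norm_smul, norm_inv, norm_norm, inv_mul_cancel₀ (norm_ne_zero_iff.mpr hg0)]
  · intro s
    have h2 : (g * P s).re = 0 := congrFun (LinearMap.mem_ker.mp hg) s
    rw [smul_mul_assoc, Quaternion.re_smul, h2]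
    simp

/-- the matrix of imaginary components -/
def mat (P : Fin 3 → ℍ[ℝ]) : Matrix (Fin 3) (Fin 3) ℝ :=
  !![(P 0).imI, (P 0).imJ, (P 0).imK; (P 1).imI, (P 1).imJ, (P 1).imK;
    (P 2).imI, (P 2).imJ, (P 2).imK]

/-- a quaternion with given components -/
def quat (a b c d : ℝ) : ℍ[ℝ] := ⟨a, b, c, d⟩
theorem quat_re (a b c d : ℝ) : (quat a b c d).re = a := rfl
theorem quat_imI (a b c d : ℝ) : (quat a b c d).imI = b := rfl
theorem quat_imJ (a b c d : ℝ) : (quat a b c d).imJ = c := rfl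
theorem quat_imK (a b c d : ℝ) : (quat a b c d).imK = d := rfl

theorem constraint {P : Fin 3 → ℍ[ℝ]} (h : ∑ s, P s * e s = 0) :
    (P 0).imI + (P 1).imJ + (P 2).imK = 0 ∧ (P 0).re = (P 1).imK - (P 2).imJ ∧
      (P 1).re = (P 2).imI - (P 0).imK ∧ (P 2).re = (P 0).imJ - (P 1).imI := by
  rw [Fin.sum_univ_three] at h
  have h1 := congrArg QuaternionAlgebra.re h
  have h2 := congrArg QuaternionAlgebra.imI h
  have h3 := congrArg QuaternionAlgebra.imJ h
  have h4 := congrArg QuaternionAlgebra.imK h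
  simp [Quaternion.re_mul, Quaternion.imI_mul, Quaternion.imJ_mul, Quaternion.imK_mul,
    e0_re, e0_imI, e0_imJ, e0_imK, e1_re, e1_imI, e1_imJ, e1_imK, e2_re, e2_imI, e2_imJ, e2_imK]
    at h1 h2 h3 h4
  refine ⟨?_, ?_, ?_, ?_⟩ <;> linarith

/-- imaginary triples with `∑ Pₛ eₛ = 0` are symmetric traceless matrices -/
theorem mat_isSymm {P : Fin 3 → ℍ[ℝ]} (h : ∑ s, P s * e s = 0) (hre : ∀ s, (P s).re = 0) :
    (mat P).IsSymm := by
  obtain ⟨-, h0, h1, h2⟩ := constraint h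
  rw [hre] at h0 h1 h2
  ext i j
  fin_cases i <;> fin_cases j <;> simp [mat] <;> linarith

theorem mat_trace {P : Fin 3 → ℍ[ℝ]} (h : ∑ s, P s * e s = 0) : (mat P).trace = 0 := by
  obtain ⟨h0, -⟩ := constraint h
  simp [Matrix.trace, Fin.sum_univ_three, mat]
  linarith

theorem eq_sum_mat {P : Fin 3 → ℍ[ℝ]} (hre : ∀ s, (P s).re = 0) (s : Fin 3) :
    P s = ∑ r, mat P s r • e r := by
  have h := hre s
  ext <;> fin_cases s <;> simp [Fin.sum_univ_three, mat, e0_re, e0_imI, e0_imJ, e0_imK, e1_re,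
    e1_imI, e1_imJ, e1_imK, e2_re, e2_imI, e2_imJ, e2_imK] <;> simpa using h

theorem Comm.mat_comm {P P' : Fin 3 → ℍ[ℝ]} (h : Comm P P') (hre : ∀ s, (P s).re = 0)
    (hre' : ∀ s, (P' s).re = 0) : mat P * mat P' = mat P' * mat P := by
  have hs := mat_isSymm h.c1 hre
  have hs' := mat_isSymm h.c2 hre'
  have key : mat P * (mat P')ᵀ = (mat P * (mat P')ᵀ)ᵀ := by
    ext i j
    have h1 := h.sym i j
    simp only [Quaternion.re_mul, Quaternion.re_star, Quaternion.imI_star, Quaternion.imJ_star,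
      Quaternion.imK_star, hre, hre'] at h1
    rw [Matrix.transpose_apply, Matrix.mul_apply, Matrix.mul_apply, Fin.sum_univ_three,
      Fin.sum_univ_three]
    fin_cases i <;> fin_cases j <;> simp [mat] at h1 ⊢ <;> linarith
  rw [Matrix.transpose_mul, Matrix.transpose_transpose, hs', hs] at key
  exact key

theorem wed_mat {P P' : Fin 3 → ℍ[ℝ]} (h : Comm P P') (i j : Fin 3) :
    ∑ s, (mat P' s i * mat P s j - mat P s i * mat P' s j) = 0 := by
  have h1 : ∀ r, ∑ s, (((e r) * star (P' s)).re • P s - ((e r) * star (P s)).re • P' s) = 0 :=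
    fun r => h.wed (e r)
  rw [Fin.sum_univ_three]
  fin_cases i
  · have h10 := h1 0
    rw [Fin.sum_univ_three] at h10
    have g0 := congrArg QuaternionAlgebra.imI h10
    have g1 := congrArg QuaternionAlgebra.imJ h10
    have g2 := congrArg QuaternionAlgebra.imK h10
    simp [Quaternion.re_mul, e0_re, e0_imI, e0_imJ, e0_imK] at g0 g1 g2
    fin_cases j <;> simp [mat] <;> linarith
  · have h10 := h1 1
    rw [Fin.sum_univ_three] at h10
    have g0 := congrArg QuaternionAlgebra.imI h10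
    have g1 := congrArg QuaternionAlgebra.imJ h10
    have g2 := congrArg QuaternionAlgebra.imK h10
    simp [Quaternion.re_mul, e1_re, e1_imI, e1_imJ, e1_imK] at g0 g1 g2
    fin_cases j <;> simp [mat] <;> linarith
  · have h10 := h1 2
    rw [Fin.sum_univ_three] at h10
    have g0 := congrArg QuaternionAlgebra.imI h10
    have g1 := congrArg QuaternionAlgebra.imJ h10
    have g2 := congrArg QuaternionAlgebra.imK h10
    simp [Quaternion.re_mul, e2_re, e2_imI, e2_imJ, e2_imK] at g0 g1 g2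
    fin_cases j <;> simp [mat] <;> linarith

theorem exists_g_im {P P' : Fin 3 → ℍ[ℝ]} (h : Comm P P') (hre : ∀ s, (P s).re = 0) :
    ∃ g : ℍ[ℝ], g ≠ 0 ∧ ∀ s, (g * P s).re = 0 ∧ (g * P' s).re = 0 := by
  -- trivial cases
  by_cases hP : ∀ s, P s = 0
  · obtain ⟨g, hg, hg'⟩ := exists_orth P'
    refine ⟨g, ?_, fun s => ⟨by rw [hP]; simp, hg' s⟩⟩
    rintro rfl
    simp at hg
  have hq := mat_isSymm h.c1 hre
  have tq := mat_trace h.c1
  have hq0 : mat P ≠ 0 := by
    intro h0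
    apply hP
    intro s
    rw [eq_sum_mat hre s, h0]
    simp
  set n : Fin 3 → ℝ := fun s => (P' s).re with hn
  set N := mat P' with hN
  set S : Matrix (Fin 3) (Fin 3) ℝ := N + Nᵀ with hS
  obtain ⟨a1, a2, a3, a4⟩ := constraint h.c1
  obtain ⟨b1, b2, b3, b4⟩ := constraint h.c2
  rw [hre] at a2 a3 a4
  have e1 : (P 1).imI = (P 0).imJ := by linarith
  have e2 : (P 2).imI = (P 0).imK := by linarith
  have e3 : (P 2).imJ = (P 1).imK := by linarith
  have e4 : (P 2).imK = -(P 0).imI - (P 1).imJ := by linarith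
  -- `q n = 0`
  have hqn : mat P *ᵥ n = 0 := by
    have h1 := h.wed 1
    rw [Fin.sum_univ_three] at h1
    have h2 := congrArg QuaternionAlgebra.imI h1
    have h3 := congrArg QuaternionAlgebra.imJ h1
    have h4 := congrArg QuaternionAlgebra.imK h1
    simp [hre, e1, e2, e3, e4] at h2 h3 h4
    rw [mulVec3]
    ext i
    fin_cases i <;> simp [mat, hn, e1, e2, e3, e4] <;> linarith
  -- `N n` is `½ S n`
  have hNn : N *ᵥ n = (1 / 2 : ℝ) • (S *ᵥ n) := by
    rw [mulVec3, mulVec3, hS]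
    simp only [Matrix.add_apply, Matrix.transpose_apply]
    ext i
    fin_cases i <;> simp [hN, mat, hn, b2, b3, b4] <;> ring
  have hSs : S.IsSymm := by
    rw [hS, Matrix.IsSymm, Matrix.transpose_add, Matrix.transpose_transpose, add_comm]
  -- `q Nᵀ = N q`
  have k1 : mat P * Nᵀ = N * mat P := by
    have h1 : mat P * Nᵀ = (mat P * Nᵀ)ᵀ := by
      ext i j
      have h1 := h.sym i j
      simp only [Quaternion.re_mul, Quaternion.re_star, Quaternion.imI_star, Quaternion.imJ_star,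
        Quaternion.imK_star, hre] at h1
      rw [Matrix.transpose_apply, Matrix.mul_apply, Matrix.mul_apply, Fin.sum_univ_three,
        Fin.sum_univ_three]
      fin_cases i <;> fin_cases j <;> simp [mat, hN] at h1 ⊢ <;> linarith
    rw [h1, Matrix.transpose_mul, Matrix.transpose_transpose, hq]
  -- `q N = Nᵀ q`
  have k2 : Nᵀ * mat P = mat P * N := by
    ext i j
    have h1 := wed_mat h i j
    rw [Fin.sum_univ_three] at h1
    rw [Matrix.mul_apply, Matrix.mul_apply, Fin.sum_univ_three, Fin.sum_univ_three]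
    simp only [Matrix.transpose_apply]
    rw [← hq.apply i 0, ← hq.apply i 1, ← hq.apply i 2]
    linarith
  -- `q S = S q`
  have k3 : mat P * S = S * mat P := by
    rw [hS, mul_add, add_mul, k1, k2, add_comm]
  have hqS : mat P *ᵥ (S *ᵥ n) = 0 := by
    rw [Matrix.mulVec_mulVec, k3, ← Matrix.mulVec_mulVec, hqn, Matrix.mulVec_zero]
  have hcr : n ⨯₃ (S *ᵥ n) = 0 := by
    by_contra hne
    exact hq0 (eq_zero_of_two hq tq hne hqn hqS)
  by_cases hn0 : n = 0
  · refine ⟨1, one_ne_zero, fun s => ⟨by rw [one_mul, hre], ?_⟩⟩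
    rw [one_mul]
    exact congrFun hn0 s
  have hnn : n ⬝ᵥ n ≠ 0 := fun h => hn0 (dot_self_eq_zero3.mp h)
  -- `(n·n) S n = (n · S n) n`
  have hSn : (n ⬝ᵥ n) • (S *ᵥ n) = (n ⬝ᵥ (S *ᵥ n)) • n := by
    have h3 := expand n (S *ᵥ n)
    have h4 : (S *ᵥ n) ⨯₃ n = 0 := by rw [← neg_cross]; simp [hcr]
    rw [h4] at h3
    simpa using h3
  set σ : ℝ := (1 / 2) * (n ⬝ᵥ (S *ᵥ n)) with hσ
  refine ⟨quat σ ((n ⬝ᵥ n) * n 0) ((n ⬝ᵥ n) * n 1) ((n ⬝ᵥ n) * n 2), ?_, ?_⟩
  · intro h0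
    apply hn0
    have g1 := congrArg QuaternionAlgebra.imI h0
    have g2 := congrArg QuaternionAlgebra.imJ h0
    have g3 := congrArg QuaternionAlgebra.imK h0
    simp [hnn, quat_imI, quat_imJ, quat_imK] at g1 g2 g3
    ext i
    fin_cases i <;> simp [g1, g2, g3]
  · intro s
    constructor
    · have h5 := congrFun hqn s
      rw [mulVec3] at h5
      rw [Quaternion.re_mul, hre, quat_re, quat_imI, quat_imJ, quat_imK]
      fin_cases s <;> simp [mat] at h5 ⊢ <;> linear_combination -(n ⬝ᵥ n) * h5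
    · have h5 := congrFun hSn s
      have h6 := congrFun hNn s
      rw [mulVec3] at h6
      rw [Quaternion.re_mul, quat_re, quat_imI, quat_imJ, quat_imK, hσ]
      have h7 : (n ⬝ᵥ (S *ᵥ n)) * n s = (n ⬝ᵥ n) * (S *ᵥ n) s := by
        simpa using h5.symm
      have h8 : (S *ᵥ n) s = 2 * (N s 0 * n 0 + N s 1 * n 1 + N s 2 * n 2) := by
        have h9 : ((1 / 2 : ℝ) • (S *ᵥ n)) s = (1 / 2) * (S *ᵥ n) s := by simp
        rw [h9] at h6
        fin_cases s <;> simp at h6 ⊢ <;> linarith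
      have h10 : (P' s).re = n s := rfl
      have h11 : (P' s).imI = N s 0 ∧ (P' s).imJ = N s 1 ∧ (P' s).imK = N s 2 := by
        fin_cases s <;> simp [hN, mat]
      rw [h10, h11.1, h11.2.1, h11.2.2]
      linear_combination (1 / 2) * h7 + (1 / 2) * (n ⬝ᵥ n) * h8

theorem exists_g {P P' : Fin 3 → ℍ[ℝ]} (h : Comm P P') :
    ∃ g : ℍ[ℝ], ‖g‖ = 1 ∧ (∀ s, (g * P s).re = 0) ∧ ∀ s, (g * P' s).re = 0 := by
  obtain ⟨g, hg, hg'⟩ := exists_orth P
  obtain ⟨k, hk0, hk⟩ := exists_g_im (h.mul hg) hg'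
  have hk1 : ‖k‖ ≠ 0 := norm_ne_zero_iff.mpr hk0
  refine ⟨‖k‖⁻¹ • (k * g), ?_, ?_, ?_⟩
  · rw [norm_smul, norm_inv, norm_norm, norm_mul, hg, mul_one, inv_mul_cancel₀ hk1]
  · intro s
    rw [smul_mul_assoc, Quaternion.re_smul, mul_assoc, (hk s).1]
    simp
  · intro s
    rw [smul_mul_assoc, Quaternion.re_smul, mul_assoc, (hk s).2]
    simp

/-- **Normal form.** A commuting pair of `𝔭` is, up to left multiplication by a unit quaternion,
a pair of commuting symmetric traceless real matrices. -/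
theorem Comm.normal_form {P P' : Fin 3 → ℍ[ℝ]} (h : Comm P P') :
    ∃ g : ℍ[ℝ], ‖g‖ = 1 ∧ ∃ q q' : Matrix (Fin 3) (Fin 3) ℝ, q.IsSymm ∧ q'.IsSymm ∧
      q.trace = 0 ∧ q'.trace = 0 ∧ q * q' = q' * q ∧
      (∀ s, g * P s = ∑ r, q s r • e r) ∧ (∀ s, g * P' s = ∑ r, q' s r • e r) := by
  obtain ⟨g, hg, h1, h2⟩ := exists_g h
  have h3 := h.mul hg
  exact ⟨g, hg, mat fun s => g * P s, mat fun s => g * P' s, mat_isSymm h3.c1 h1,
    mat_isSymm h3.c2 h2, mat_trace h3.c1, mat_trace h3.c2, h3.mat_comm h1 h2,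
    fun s => eq_sum_mat h1 s, fun s => eq_sum_mat h2 s⟩

/-- the linear extension of a triple to the imaginary quaternions -/
def lin (P : Fin 3 → ℍ[ℝ]) (w : ℍ[ℝ]) : ℍ[ℝ] := w.imI • P 0 + w.imJ • P 1 + w.imK • P 2

/-- imaginary components -/
def im3 (x : ℍ[ℝ]) : Fin 3 → ℝ := ![x.imI, x.imJ, x.imK]

theorem im3_eq_zero {x : ℍ[ℝ]} (hx : x.re = 0) (h : im3 x = 0) : x = 0 := by
  have h0 := congrFun h 0
  have h1 := congrFun h 1
  have h2 := congrFun h 2
  simp [im3] at h0 h1 h2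
  ext <;> simp [hx, h0, h1, h2]

theorem n1_im {P P' : Fin 3 → ℍ[ℝ]} (h : Comm P P') (hre : ∀ s, (P s).re = 0)
    (hre' : ∀ s, (P' s).re = 0) {b c : ℍ[ℝ]} (hb : b.re = 0) (hc : c.re = 0)
    (hind : ∀ α β : ℝ, (∀ s, α • P s + β • P' s = 0) → α = 0 ∧ β = 0)
    (H : ∀ w : ℍ[ℝ], w.re = 0 → -(lin P' w * b) - lin P' (b * w - w * b) + lin P w * c
      + lin P (c * w - w * c) = 0) : b = 0 ∧ c = 0 := by
  have hS := mat_isSymm h.c1 hre
  have hT := mat_isSymm h.c2 hre'
  have tS := mat_trace h.c1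
  have tT := mat_trace h.c2
  obtain ⟨a1, a2, a3, a4⟩ := constraint h.c1
  obtain ⟨b1, b2, b3, b4⟩ := constraint h.c2
  rw [hre] at a2 a3 a4
  rw [hre'] at b2 b3 b4
  have e1 : (P 1).imI = (P 0).imJ := by linarith
  have e2 : (P 2).imI = (P 0).imK := by linarith
  have e3 : (P 2).imJ = (P 1).imK := by linarith
  have f1 : (P' 1).imI = (P' 0).imJ := by linarith
  have f2 : (P' 2).imI = (P' 0).imK := by linarith
  have f3 : (P' 2).imJ = (P' 1).imK := by linarith
  have h1 : mat P' *ᵥ im3 b = mat P *ᵥ im3 c := by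
    have g0 := congrArg QuaternionAlgebra.re (H (e 0) rfl)
    have g1 := congrArg QuaternionAlgebra.re (H (e 1) rfl)
    have g2 := congrArg QuaternionAlgebra.re (H (e 2) rfl)
    simp [lin, Quaternion.re_mul, Quaternion.imI_mul, Quaternion.imJ_mul, Quaternion.imK_mul,
      e0_re, e0_imI, e0_imJ, e0_imK, e1_re, e1_imI, e1_imJ, e1_imK, e2_re, e2_imI, e2_imJ,
      e2_imK, hre, hre', hb, hc] at g0 g1 g2
    rw [mulVec3, mulVec3]
    ext i
    fin_cases i <;> simp [mat, im3] <;> linarith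
  have h2 : ∀ w, mat P' *ᵥ (im3 b ⨯₃ w) = mat P *ᵥ (im3 c ⨯₃ w) := by
    intro w
    have h3 : -((mat P' *ᵥ w) ⨯₃ im3 b) - (2 : ℝ) • (mat P' *ᵥ (im3 b ⨯₃ w))
        + (mat P *ᵥ w) ⨯₃ im3 c + (2 : ℝ) • (mat P *ᵥ (im3 c ⨯₃ w)) = 0 := by
      have h4 := H (quat 0 (w 0) (w 1) (w 2)) rfl
      have g0 := congrArg QuaternionAlgebra.imI h4
      have g1 := congrArg QuaternionAlgebra.imJ h4
      have g2 := congrArg QuaternionAlgebra.imK h4
      simp [lin, Quaternion.imI_mul, Quaternion.imJ_mul, Quaternion.imK_mul, quat_re, quat_imI, quat_imJ, quat_imK, hre, hre', hb, hc, e1, e2, e3, f1, f2, f3]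
        at g0 g1 g2
      rw [mulVec3, mulVec3, mulVec3, mulVec3]
      ext i
      fin_cases i <;> simp [mat, im3, cross_apply, e1, e2, e3, f1, f2, f3] <;> linarith
    have h4 := cross_st hT tT (im3 b) w
    have h5 := cross_st hS tS (im3 c) w
    have h6 : (mat P' *ᵥ w) ⨯₃ im3 b = mat P' *ᵥ (im3 b ⨯₃ w) + (mat P' *ᵥ im3 b) ⨯₃ w := by
      rw [h4, ← neg_cross]
      abel
    have h7 : (mat P *ᵥ w) ⨯₃ im3 c = mat P *ᵥ (im3 c ⨯₃ w) + (mat P *ᵥ im3 c) ⨯₃ w := by
      rw [h5, ← neg_cross]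
      abel
    rw [h6, h7, h1] at h3
    have h8 : (3 : ℝ) • (mat P *ᵥ (im3 c ⨯₃ w) - mat P' *ᵥ (im3 b ⨯₃ w)) = 0 := by
      rw [← h3]
      module
    exact (sub_eq_zero.mp ((smul_eq_zero.mp h8).resolve_left three_ne_zero)).symm
  rcases n1_mat hS hT tS tT (h.mat_comm hre hre') h1 h2 with ⟨h3, h4⟩ | ⟨α, β, h3, h4⟩
  · exact ⟨im3_eq_zero hb h3, im3_eq_zero hc h4⟩
  · exfalso
    have h5 := hind α β (fun s => by
      rw [eq_sum_mat hre s, eq_sum_mat hre' s, Finset.smul_sum, Finset.smul_sum,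
        ← Finset.sum_add_distrib]
      refine Finset.sum_eq_zero fun r _ => ?_
      have h6 := congrFun (congrFun h4 s) r
      simp only [Matrix.add_apply, Matrix.smul_apply, smul_eq_mul, Matrix.zero_apply] at h6
      rw [smul_smul, smul_smul, ← add_smul, h6, zero_smul])
    rcases h3 with h3 | h3
    · exact h3 h5.1
    · exact h3 h5.2

theorem n1_quat {P P' : Fin 3 → ℍ[ℝ]} (h : Comm P P') {b c : ℍ[ℝ]} (hb : b.re = 0)
    (hc : c.re = 0) (hind : ∀ α β : ℝ, (∀ s, α • P s + β • P' s = 0) → α = 0 ∧ β = 0)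
    (H : ∀ w : ℍ[ℝ], w.re = 0 → -(lin P' w * b) - lin P' (b * w - w * b) + lin P w * c
      + lin P (c * w - w * c) = 0) : b = 0 ∧ c = 0 := by
  obtain ⟨g, hg, h1, h2⟩ := exists_g h
  have hg0 : g ≠ 0 := by
    rintro rfl
    simp at hg
  refine n1_im (h.mul hg) h1 h2 hb hc ?_ ?_
  · intro α β h3
    apply hind
    intro s
    have h4 := h3 s
    rw [← mul_smul_comm, ← mul_smul_comm, ← mul_add] at h4
    exact (mul_eq_zero.mp h4).resolve_left hg0
  · intro w hw
    have key : ∀ (Q : Fin 3 → ℍ[ℝ]) (x : ℍ[ℝ]), lin (fun s => g * Q s) x = g * lin Q x := by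
      intro Q x
      simp only [lin, mul_add, mul_smul_comm]
    rw [key, key, key, key]
    have h3 := congrArg (fun z => g * z) (H w hw)
    simp only [mul_zero] at h3
    rw [← h3]
    simp only [mul_add, mul_sub, mul_neg, mul_assoc]

/-! ## `free` -/

theorem free_quat {P : Fin 3 → ℍ[ℝ]} {b : ℍ[ℝ]} (hb : b.re = 0)
    (H : ∀ w : ℍ[ℝ], w.re = 0 → -(lin P w * b) - lin P (b * w - w * b) = 0) :
    b = 0 ∨ ∀ s, P s = 0 := by
  by_cases hb0 : b = 0
  · exact Or.inl hb0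
  right
  have hbb : Quaternion.normSq b ≠ 0 := by
    intro h
    exact hb0 (Quaternion.normSq_eq_zero.mp h)
  have hbsq : b * b = -((Quaternion.normSq b : ℝ) : ℍ[ℝ]) := by
    have h1 : star b = -b := by
      ext <;> simp [hb]
    have h2 := Quaternion.self_mul_star b
    rw [h1, mul_neg] at h2
    rw [← h2, neg_neg]
  have hlin_add : ∀ x y, lin P (x + y) = lin P x + lin P y := by
    intro x y
    simp only [lin, Quaternion.imI_add, Quaternion.imJ_add, Quaternion.imK_add, add_smul]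
    abel
  have hlin_smul : ∀ (r : ℝ) x, lin P (r • x) = r • lin P x := by
    intro r x
    simp only [lin, Quaternion.imI_smul, Quaternion.imJ_smul, Quaternion.imK_smul, smul_eq_mul,
      mul_smul, smul_add]
  have hPb : lin P b = 0 := by
    have h1 := H b hb
    have h2 : lin P (b * b - b * b) = 0 := by simp [lin]
    rw [h2, sub_zero, neg_eq_zero] at h1
    exact (mul_eq_zero.mp h1).resolve_right hb0
  -- `P([b, w]) = - P(w) b`
  have h1 : ∀ w : ℍ[ℝ], w.re = 0 → lin P (b * w - w * b) = -(lin P w * b) := by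
    intro w hw
    have := H w hw
    rw [sub_eq_zero] at this
    exact this.symm
  have h2 : ∀ w : ℍ[ℝ], w.re = 0 → lin P w = 0 := by
    intro w hw
    have hre : (b * w - w * b).re = 0 := by
      rw [Quaternion.re_sub, re_mul_comm', sub_self]
    have h3 := h1 _ hre
    rw [h1 w hw] at h3
    -- `[b,[b,w]] = -4|b|² w + c b`
    have h4 : b * (b * w - w * b) - (b * w - w * b) * b
        = (-(4 * Quaternion.normSq b)) • w + (4 * (b * star w).re) • b := by
      ext <;> simp [Quaternion.re_mul, Quaternion.imI_mul, Quaternion.imJ_mul,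
        Quaternion.imK_mul, hb, hw, Quaternion.normSq_def'] <;> ring
    rw [h4, hlin_add, hlin_smul, hlin_smul, hPb, smul_zero, add_zero] at h3
    have h5 : -(-(lin P w * b) * b) = (-Quaternion.normSq b) • lin P w := by
      rw [neg_mul, neg_neg, mul_assoc, hbsq, mul_neg, Quaternion.mul_coe_eq_smul, neg_smul]
    rw [h5] at h3
    have h6 : (-(3 * Quaternion.normSq b)) • lin P w = 0 := by
      have : (-(3 * Quaternion.normSq b)) • lin P w
          = (-(4 * Quaternion.normSq b)) • lin P w - (-Quaternion.normSq b) • lin P w := by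
        rw [← sub_smul]
        congr 1
        ring
      rw [this, h3, sub_self]
    exact (smul_eq_zero.mp h6).resolve_left (by
      intro h7
      apply hbb
      linarith)
  intro s
  have h3 := h2 (e s) (by fin_cases s <;> rfl)
  fin_cases s <;> simpa [lin, e0_imI, e0_imJ, e0_imK, e1_imI, e1_imJ, e1_imK, e2_imI, e2_imJ,
    e2_imK] using h3

/-! ## the Lie algebra statements -/

theorem comm_of_lie {P P' : Fin 3 → ℍ[ℝ]} (hP : ∑ s, P s * e s = 0) (hP' : ∑ s, P' s * e s = 0)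
    (h : ⁅pel P, pel P'⁆ = 0) : Comm P P' := by
  have h1 : ∀ x : Oct, pel P (pel P' x) - pel P' (pel P x) = 0 := by
    intro x
    rw [← lie_apply, h]
    rfl
  refine ⟨hP, hP', ?_, ?_⟩
  · have key : ∀ t, pel P' (e t, 0) = ((pel P' (e t, 0)).1, P' t) := by
      intro t
      refine Prod.ext rfl ?_
      rw [pel_2]
      fin_cases t <;> simp [e0_imI, e0_imJ, e0_imK, e1_imI, e1_imJ, e1_imK, e2_imI, e2_imJ,
        e2_imK]
    have key' : ∀ t, pel P (e t, 0) = ((pel P (e t, 0)).1, P t) := by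
      intro t
      refine Prod.ext rfl ?_
      rw [pel_2]
      fin_cases t <;> simp [e0_imI, e0_imJ, e0_imK, e1_imI, e1_imJ, e1_imK, e2_imI, e2_imJ,
        e2_imK]
    have g : ∀ t, (P' t * star (P 0)).re = (P t * star (P' 0)).re ∧
        (P' t * star (P 1)).re = (P t * star (P' 1)).re ∧
        (P' t * star (P 2)).re = (P t * star (P' 2)).re := by
      intro t
      have h2 := sub_eq_zero.mp (h1 (e t, 0))
      rw [key, key'] at h2
      have g1 := congrArg (fun z : Oct => z.1.imI) h2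
      have g2 := congrArg (fun z : Oct => z.1.imJ) h2
      have g3 := congrArg (fun z : Oct => z.1.imK) h2
      simp only [pel_1I, pel_1J, pel_1K] at g1 g2 g3
      refine ⟨?_, ?_, ?_⟩ <;> simp only [Quaternion.re_mul, Quaternion.re_star,
        Quaternion.imI_star, Quaternion.imJ_star, Quaternion.imK_star] <;> linarith
    have hsw : ∀ x y : ℍ[ℝ], (x * star y).re = (y * star x).re := by
      intro x y
      simp [Quaternion.re_mul]
      ring
    intro s t
    obtain ⟨g1, g2, g3⟩ := g t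
    rw [hsw]
    fin_cases s
    · exact g1
    · exact g2
    · exact g3
  · intro b
    have h2 := congrArg Prod.snd (h1 (0, b))
    rw [Prod.snd_sub, pel_2, pel_2, pel_1I, pel_1J, pel_1K, pel_1I, pel_1J, pel_1K] at h2
    rw [Fin.sum_univ_three]
    simp only [Quaternion.re_mul, Quaternion.re_star, Quaternion.imI_star, Quaternion.imJ_star,
      Quaternion.imK_star]
    simp only at h2
    refine neg_eq_zero.mp (Eq.trans ?_ h2)
    module

/-- **Normal form** of the commuting pairs of `𝔭` -/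
theorem normal_form {P P' : Fin 3 → ℍ[ℝ]} (hP : ∑ s, P s * e s = 0)
    (hP' : ∑ s, P' s * e s = 0) (h : ⁅pel P, pel P'⁆ = 0) :
    ∃ g : ℍ[ℝ], ‖g‖ = 1 ∧ ∃ q q' : Matrix (Fin 3) (Fin 3) ℝ, q.IsSymm ∧ q'.IsSymm ∧
      q.trace = 0 ∧ q'.trace = 0 ∧ q * q' = q' * q ∧
      (∀ s, g * P s = ∑ r, q s r • e r) ∧ (∀ s, g * P' s = ∑ r, q' s r • e r) :=
  (comm_of_lie hP hP' h).normal_form

theorem kel_zero : kel 0 = 0 := kelL.map_zero

theorem kel_eq_zero {b : ℍ[ℝ]} (hb : b.re = 0) (h : kel b = 0) : b = 0 := by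
  have h1 := qc_kel hb
  rw [h] at h1
  rw [← h1, map_zero]

theorem kcomm : ∀ a ∈ sk, ∀ c ∈ sk, ⁅a, c⁆ = 0 →
    ∃ α β : ℝ, (α ≠ 0 ∨ β ≠ 0) ∧ α • a + β • c = 0 := by
  intro a ha c hc h
  obtain ⟨b, hb, rfl⟩ := (mem_sk a).mp ha
  obtain ⟨d, hd, rfl⟩ := (mem_sk c).mp hc
  rw [lie_kel_kel] at h
  have h1 := kel_eq_zero (by rw [Quaternion.re_sub, re_mul_comm', sub_self]) h
  by_cases hb0 : b = 0
  · refine ⟨1, 0, Or.inl one_ne_zero, ?_⟩
    rw [hb0, ← kel_smul, ← kel_smul, ← kel_add, smul_zero, zero_smul, add_zero, kel_zero]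
  have hbb : Quaternion.normSq b ≠ 0 := fun h => hb0 (Quaternion.normSq_eq_zero.mp h)
  refine ⟨-(b * star d).re, Quaternion.normSq b, Or.inr hbb, ?_⟩
  rw [← kel_smul, ← kel_smul, ← kel_add]
  have g1 := congrArg QuaternionAlgebra.imI h1
  have g2 := congrArg QuaternionAlgebra.imJ h1
  have g3 := congrArg QuaternionAlgebra.imK h1
  simp [Quaternion.imI_mul, Quaternion.imJ_mul, Quaternion.imK_mul, hb, hd] at g1 g2 g3
  have h2 : -(b * star d).re • b + Quaternion.normSq b • d = 0 := by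
    ext
    · simp [hb, hd]
    · simp [Quaternion.re_mul, hb, hd, Quaternion.normSq_def']
      linear_combination (-(1 / 2) * b.imJ) * g3 + (1 / 2 * b.imK) * g2
    · simp [Quaternion.re_mul, hb, hd, Quaternion.normSq_def']
      linear_combination (-(1 / 2) * b.imK) * g1 + (1 / 2 * b.imI) * g3
    · simp [Quaternion.re_mul, hb, hd, Quaternion.normSq_def']
      linear_combination (-(1 / 2) * b.imI) * g2 + (1 / 2 * b.imJ) * g1
  rw [h2, kel_zero]

theorem pel_eq_zero {P : Fin 3 → ℍ[ℝ]} (h : ∀ s, P s = 0) : pel P = 0 := by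
  have h1 : P = 0 := funext h
  rw [h1]
  exact pelL.map_zero

theorem free : ∀ a ∈ sk, ∀ y ∈ sp, ⁅a, y⁆ = 0 → a = 0 ∨ y = 0 := by
  intro a ha y hy h
  obtain ⟨b, hb, rfl⟩ := (mem_sk a).mp ha
  obtain ⟨P, hP, rfl⟩ := (mem_sp y).mp hy
  have H : ∀ w : ℍ[ℝ], w.re = 0 → -(lin P w * b) - lin P (b * w - w * b) = 0 := by
    intro w hw
    have h1 : ⁅kel b, pel P⁆ (w, 0) = 0 := by rw [h]; rfl
    rw [lie_apply] at h1
    have h2 := congrArg Prod.snd h1
    rw [Prod.snd_sub, kel_apply, kel_apply, pel_2, pel_2] at h2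
    exact h2
  rcases free_quat hb H with h1 | h1
  · left
    rw [h1, kel_zero]
  · right
    exact pel_eq_zero h1

theorem n1 : ∀ u ∈ sp, ∀ v ∈ sp, LinearIndependent ℝ ![u, v] → ⁅u, v⁆ = 0 →
    ∀ a ∈ sk, ∀ c ∈ sk, ⁅a, v⁆ + ⁅u, c⁆ = 0 → a = 0 ∧ c = 0 := by
  intro u hu v hv hli huv a ha c hc h
  obtain ⟨P, hP, rfl⟩ := (mem_sp u).mp hu
  obtain ⟨P', hP', rfl⟩ := (mem_sp v).mp hv
  obtain ⟨b, hb, rfl⟩ := (mem_sk a).mp ha
  obtain ⟨d, hd, rfl⟩ := (mem_sk c).mp hc
  have hC := comm_of_lie hP hP' huv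
  have h3 : b = 0 ∧ d = 0 := by
    apply n1_quat hC hb hd
    · intro α β hαβ
      have h1 : α • pel P + β • pel P' = 0 := by
        rw [← pel_smul, ← pel_smul, ← pel_add]
        exact pel_eq_zero hαβ
      exact LinearIndependent.pair_iff.mp hli α β h1
    · intro w hw
      have h1 : (⁅kel b, pel P'⁆ + ⁅pel P, kel d⁆) (w, 0) = 0 := by rw [h]; rfl
      rw [_root_.add_apply, lie_apply, lie_apply] at h1
      have h2 := congrArg Prod.snd h1
      rw [Prod.snd_add, Prod.snd_sub, Prod.snd_sub, kel_apply, kel_apply, kel_apply, kel_apply,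
        pel_2, pel_2, pel_2, pel_2] at h2
      refine Eq.trans ?_ h2
      simp only [lin]
      abel
  rw [h3.1, h3.2, kel_zero]
  exact ⟨rfl, rfl⟩

end G2n

open scoped Quaternion in
/-- **Normal form** of the commuting pairs of `𝔭`, shape used for `n2` -/
theorem normal_form {P P' : Fin 3 → ℍ[ℝ]} (hP : ∑ s, P s * e s = 0)
    (hP' : ∑ s, P' s * e s = 0) (_hli : LinearIndependent ℝ ![pel P, pel P'])
    (hc : ⁅pel P, pel P'⁆ = 0) :
    ∃ (g : ℍ[ℝ]) (q q' : Matrix (Fin 3) (Fin 3) ℝ), ‖g‖ = 1 ∧ q.IsSymm ∧ q'.IsSymm ∧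
      q.trace = 0 ∧ q'.trace = 0 ∧ q * q' = q' * q ∧
      (∀ s, P s = g * ∑ r, q s r • e r) ∧ (∀ s, P' s = g * ∑ r, q' s r • e r) := by
  obtain ⟨g, hg, q, q', h1, h2, h3, h4, h5, h6, h7⟩ := G2n.normal_form hP hP' hc
  have hgg := G2n.star_mul_self_of_norm hg
  refine ⟨star g, q, q', ?_, h1, h2, h3, h4, h5, fun s => ?_, fun s => ?_⟩
  · rw [Quaternion.norm_star, hg]
  · rw [← h6, ← mul_assoc, hgg, one_mul]
  · rw [← h7, ← mul_assoc, hgg, one_mul]

end Pool.Agent.Helper93.Fin.G2
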