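import Mathlib
import Pool.Agent.helper79.TwBase

/-!
Measure theoretic module for MP_9075ca_an (helper79): noise outsourcing along a well-ordered set,
approximation by sets depending on finitely many coordinates, and covers of null sets.
-/

set_option autoImplicit false

open MeasureTheory Topology Set ProbabilityTheory
open scoped ENNReal symmDiff

namespace Pool.Agent.helper79.Tw

/-! ### Cylinders -/

lemma finDep_of_mem_cyl {I : Type*} {A : Set (I → Bool)}
    (hA : A ∈ measurableCylinders (fun _ : I => Bool)) : FinDep A := by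
  rw [mem_measurableCylinders] at hA
  obtain ⟨s, S, -, rfl⟩ := hA
  refine ⟨s, fun x y h => ?_⟩
  rw [mem_cylinder, mem_cylinder]
  have : s.restrict x = s.restrict y := by
    funext i
    exact h i.1 i.2
  rw [this]

theorem approx {I : Type*} (A : Set (I → Bool)) (hA : MeasurableSet A) (ε : ℝ≥0∞) (hε : 0 < ε) :
    ∃ C : Set (I → Bool), FinDep C ∧ mu I (A ∆ C) < ε := by
  obtain ⟨t, ht, h⟩ := exists_measure_symmDiff_lt_of_generateFrom_isSetRing (μ := mu I)
    (C := measurableCylinders (fun _ : I => Bool)) isSetRing_measurableCylinders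
    ⟨{univ}, countable_singleton _, by
      rw [singleton_subset_iff]
      exact univ_mem_measurableCylinders _, by simp⟩
    generateFrom_measurableCylinders.symm hA hε
  refine ⟨t, finDep_of_mem_cyl ht, ?_⟩
  rwa [symmDiff_comm]

/-! ### Null covers -/

set_option backward.isDefEq.respectTransparency false in
lemma measure_eq_induced {α : Type*} {C : Set (Set α)} [mα : MeasurableSpace α]
    (m : AddContent ℝ≥0∞ C) (hC : IsSetSemiring C)
    (hC_gen : mα ≤ MeasurableSpace.generateFrom C) (hs : m.IsSigmaSubadditive) (N : Set α)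
    (hN : MeasurableSet N) :
    m.measure hC hC_gen hs N
      = inducedOuterMeasure (P := fun s => s ∈ C) (fun x _ => m x) hC.empty_mem
        addContent_empty N := by
  rw [AddContent.measure, trim_measurableSet_eq _ hN]
  exact m.measureCaratheodory_eq_inducedOuterMeasure hC hs

lemma cover_aux {I : Type*} (N : Set (I → Bool)) (hN : MeasurableSet N) (h0 : mu I N = 0)
    (ε : ℝ≥0∞) (hε : 0 < ε) :
    ∃ t : ℕ → Set (I → Bool), (∀ n, FinDep (t n)) ∧ N ⊆ ⋃ n, t n ∧ ∑' n, mu I (t n) ≤ ε := by
  classical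
  have hpr : ∀ i : I, IsProbabilityMeasure ((fun _ : I => coin) i) := fun _ => inferInstance
  set m := piContent (fun _ : I => coin) with hm
  have hmu : mu I = m.measure isSetSemiring_measurableCylinders
      generateFrom_measurableCylinders.ge (isSigmaSubadditive_piContent _) := by
    unfold mu Measure.infinitePi
    rw [dif_pos hpr]
  have hC : IsSetSemiring (measurableCylinders (fun _ : I => Bool)) :=
    isSetSemiring_measurableCylinders
  have h1 : inducedOuterMeasure (P := fun s => s ∈ measurableCylinders (fun _ : I => Bool))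
      (fun x _ => m x) hC.empty_mem addContent_empty N = 0 := by
    rw [← h0, hmu, measure_eq_induced _ _ _ _ _ hN]
  unfold inducedOuterMeasure at h1
  rw [OuterMeasure.ofFunction_apply] at h1
  have h2 : (⨅ (t : ℕ → Set (I → Bool)) (_ : N ⊆ iUnion t), ∑' n, extend (fun x (_ : x ∈
      measurableCylinders (fun _ : I => Bool)) => m x) (t n)) < ε := by
    rw [h1]; exact hε
  rw [iInf_lt_iff] at h2
  obtain ⟨t, h3⟩ := h2
  rw [iInf_lt_iff] at h3
  obtain ⟨hcov, h4⟩ := h3
  have hne : ∀ n, t n ∈ measurableCylinders (fun _ : I => Bool) := by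
    intro n
    by_contra hn
    have h5 : extend (fun x (_ : x ∈ measurableCylinders (fun _ : I => Bool)) => m x) (t n) = ⊤ :=
      iInf_neg hn
    have h6 := ENNReal.le_tsum (f := fun n => extend (fun x (_ : x ∈
      measurableCylinders (fun _ : I => Bool)) => m x) (t n)) n
    rw [h5, top_le_iff] at h6
    rw [h6] at h4
    exact not_top_lt h4
  refine ⟨t, fun n => finDep_of_mem_cyl (hne n), hcov, ?_⟩
  refine le_of_eq_of_le ?_ h4.le
  refine tsum_congr fun n => ?_
  rw [extend_eq _ (hne n), hmu]
  exact AddContent.measure_eq _ _ generateFrom_measurableCylinders.symm _ (hne n)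

theorem nullCover {I : Type*} (N : Set (I → Bool)) (hN : MeasurableSet N) (h0 : mu I N = 0) :
    ∃ A : ℕ → Set (I → Bool), (∀ n, FinDep (A n)) ∧ (∑' n, mu I (A n)) ≠ ⊤ ∧
      ∀ x ∈ N, {n | x ∈ A n}.Infinite := by
  have h : ∀ m : ℕ, ∃ t : ℕ → Set (I → Bool), (∀ n, FinDep (t n)) ∧ N ⊆ ⋃ n, t n ∧
      ∑' n, mu I (t n) ≤ (2⁻¹ : ℝ≥0∞) ^ m := fun m =>
    cover_aux N hN h0 _ (ENNReal.pow_pos (by simp) m)
  choose t ht1 ht2 ht3 using h
  refine ⟨fun k => t k.unpair.1 k.unpair.2, fun k => ht1 _ _, ?_, ?_⟩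
  · have h1 : (∑' k : ℕ, mu I (t k.unpair.1 k.unpair.2))
        = ∑' m, ∑' n, mu I (t m n) := by
      rw [← ENNReal.tsum_prod, ← Nat.pairEquiv.symm.tsum_eq]
      rfl
    rw [h1]
    refine ne_top_of_le_ne_top ?_ (ENNReal.tsum_le_tsum ht3)
    rw [ENNReal.tsum_geometric]
    simp
  · intro x hx
    have hc : ∀ m, ∃ n, x ∈ t m n := fun m => by
      have := ht2 m hx
      rwa [mem_iUnion] at this
    choose g hg using hc
    refine Set.infinite_of_injective_forall_mem (f := fun m => Nat.pair m (g m)) ?_ ?_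
    · intro a b hab
      have := congrArg Nat.unpair hab
      simp only [Nat.unpair_pair, Prod.mk.injEq] at this
      exact this.1
    · intro m
      simp only [Nat.unpair_pair, mem_ofPred_eq]
      exact hg m

/-! ### Biased coins from fair coins -/

lemma coin_singleton (b : Bool) : coin {b} = 1 / 2 := by
  cases b <;> simp [coin]

lemma mu_cyl (d : ℕ → Bool) (n : ℕ) :
    mu ℕ {u | u n = false ∧ ∀ k < n, u k = d k} = (2⁻¹ : ℝ≥0∞) ^ (n + 1) := by
  classical
  have h : {u : ℕ → Bool | u n = false ∧ ∀ k < n, u k = d k}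
      = Set.pi (Finset.range (n + 1) : Set ℕ) (fun k => if k = n then {false} else {d k}) := by
    ext u
    simp only [mem_ofPred_eq, Set.mem_pi, Finset.coe_range, mem_Iio]
    constructor
    · rintro ⟨h1, h2⟩ k hk
      by_cases hkn : k = n
      · subst hkn; simp [h1]
      · simp [hkn, h2 k (by omega)]
    · intro h
      refine ⟨by simpa using h n (by omega), fun k hk => ?_⟩
      have := h k (by omega)
      simpa [hk.ne] using this
  rw [h]
  unfold mu
  rw [Measure.infinitePi_pi]
  · rw [Finset.prod_congr rfl (g := fun _ => (2⁻¹ : ℝ≥0∞)), Finset.prod_const, Finset.card_range]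
    intro k _
    split_ifs <;> simp [coin_singleton]
  · intro k _
    split_ifs <;> exact MeasurableSet.of_discrete

lemma meas_eval_eq (k : ℕ) (b : Bool) : MeasurableSet {u : ℕ → Bool | u k = b} :=
  measurableSet_eq_fun (measurable_pi_apply k) measurable_const

lemma meas_cyl (d : ℕ → Bool) (n : ℕ) :
    MeasurableSet {u : ℕ → Bool | u n = false ∧ ∀ k < n, u k = d k} := by
  have : {u : ℕ → Bool | u n = false ∧ ∀ k < n, u k = d k}
      = {u | u n = false} ∩ ⋂ k, ⋂ (_ : k < n), {u | u k = d k} := by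
    ext u; simp
  rw [this]
  exact (meas_eval_eq _ _).inter (MeasurableSet.iInter fun k => MeasurableSet.iInter fun _ =>
    meas_eval_eq _ _)

lemma mu_biased (r : ℝ) (h0 : 0 ≤ r) (h1 : r < 1) :
    mu ℕ {u | ∃ n, Real.digits r 2 n = 1 ∧ u n = false ∧
      ∀ k < n, u k = decide (Real.digits r 2 k = 1)} = ENNReal.ofReal r := by
  classical
  set d : ℕ → Bool := fun k => decide (Real.digits r 2 k = 1) with hd
  have hs : {u : ℕ → Bool | ∃ n, Real.digits r 2 n = 1 ∧ u n = false ∧
      ∀ k < n, u k = decide (Real.digits r 2 k = 1)} = ⋃ n, {u | Real.digits r 2 n = 1 ∧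
        (u n = false ∧ ∀ k < n, u k = d k)} := by
    ext u
    simp [hd]
  rw [hs, measure_iUnion]
  · have hsum := Real.hasSum_ofDigitsTerm_digits r (b := 2) (by norm_num) ⟨h0, h1⟩
    have h2 : ENNReal.ofReal r = ∑' n, ENNReal.ofReal (Real.ofDigitsTerm (Real.digits r 2) n) := by
      rw [← ENNReal.ofReal_tsum_of_nonneg (fun n => Real.ofDigitsTerm_nonneg) hsum.summable,
        hsum.tsum_eq]
    rw [h2]
    refine tsum_congr fun n => ?_
    by_cases hn : Real.digits r 2 n = 1
    · simp only [hn, true_and]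
      rw [mu_cyl, Real.ofDigitsTerm, hn]
      have h5 : ((((1 : Fin 2) : ℕ) : ℝ) * (((2 : ℕ) : ℝ) ^ (n + 1))⁻¹) = (2⁻¹ : ℝ) ^ (n + 1) := by
        simp
      rw [h5, ENNReal.ofReal_pow (by norm_num), ENNReal.ofReal_inv_of_pos (by norm_num)]
      simp
    · have h3 : Real.digits r 2 n = 0 := by
        have := (Real.digits r 2 n).isLt
        ext
        have h4 : ((Real.digits r 2 n : Fin 2) : ℕ) ≠ 1 := fun h => hn (Fin.ext h)
        simp
        omega
      simp only [hn, false_and]
      rw [Real.ofDigitsTerm, h3]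
      simp
  · have key : ∀ i j, i < j → Disjoint {u : ℕ → Bool | Real.digits r 2 i = 1 ∧
        (u i = false ∧ ∀ k < i, u k = d k)} {u | Real.digits r 2 j = 1 ∧
        (u j = false ∧ ∀ k < j, u k = d k)} := by
      intro i j hij
      rw [Set.disjoint_left]
      rintro u ⟨h1, h2, -⟩ ⟨-, -, h5⟩
      have := h5 i hij
      rw [h2] at this
      simp [hd, h1] at this
    intro i j hij
    rcases lt_or_gt_of_ne hij with h | h
    · exact key i j h
    · exact (key j i h).symm
  · intro n
    by_cases hn : Real.digits r 2 n = 1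
    · simp only [hn, true_and]
      exact meas_cyl d n
    · simp only [hn, false_and]
      simp

lemma exists_coin_set {α : Type*} [MeasurableSpace α] (p : α → ℝ≥0∞) (hp : Measurable p)
    (h1 : ∀ a, p a ≤ 1) :
    ∃ G : Set (α × (ℕ → Bool)), MeasurableSet G ∧ ∀ a, mu ℕ {u | (a, u) ∈ G} = p a := by
  classical
  have hd : ∀ n, Measurable fun a => Real.digits (p a).toReal 2 n := by
    intro n
    unfold Real.digits
    have h2 : Measurable fun a => ⌊(p a).toReal * ((2 : ℕ) : ℝ) ^ (n + 1)⌋₊ :=
      Nat.measurable_floor.comp (hp.ennreal_toReal.mul_const _)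
    exact (measurable_of_countable (fun m : ℕ => Fin.ofNat 2 m)).comp h2
  have hsing : ∀ n, MeasurableSet {q : α × (ℕ → Bool) | Real.digits (p q.1).toReal 2 n = 1} := by
    intro n
    exact ((hd n).comp measurable_fst) (MeasurableSet.of_discrete (s := {1}))
  have hu : ∀ n (b : Bool), MeasurableSet {q : α × (ℕ → Bool) | q.2 n = b} := by
    intro n b
    exact measurable_snd (meas_eval_eq n b)
  refine ⟨{q | p q.1 = 1} ∪ ({q | p q.1 < 1} ∩ ⋃ n, ({q | Real.digits (p q.1).toReal 2 n = 1} ∩
    ({q | q.2 n = false} ∩ ⋂ k, ⋂ (_ : k < n),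
      {q | q.2 k = decide (Real.digits (p q.1).toReal 2 k = 1)}))), ?_, ?_⟩
  · refine ((hp.comp measurable_fst) (MeasurableSet.singleton 1)).union
      (((hp.comp measurable_fst) measurableSet_Iio).inter (MeasurableSet.iUnion fun n =>
        (hsing n).inter ((hu n false).inter (MeasurableSet.iInter fun k =>
          MeasurableSet.iInter fun _ => ?_))))
    have : {q : α × (ℕ → Bool) | q.2 k = decide (Real.digits (p q.1).toReal 2 k = 1)}
        = ({q | q.2 k = true} ∩ {q | Real.digits (p q.1).toReal 2 k = 1}) ∪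
          ({q | q.2 k = false} ∩ {q | Real.digits (p q.1).toReal 2 k = 1}ᶜ) := by
      ext q
      by_cases h : Real.digits (p q.1).toReal 2 k = 1
      · cases h' : q.2 k <;> simp [h, h']
      · cases h' : q.2 k <;> simp [h, h']
    rw [this]
    exact ((hu k true).inter (hsing k)).union ((hu k false).inter (hsing k).compl)
  · intro a
    rcases (h1 a).lt_or_eq with h | h
    · have h3 : {u : ℕ → Bool | (a, u) ∈ {q : α × (ℕ → Bool) | p q.1 = 1} ∪
          ({q | p q.1 < 1} ∩ ⋃ n, ({q | Real.digits (p q.1).toReal 2 n = 1} ∩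
          ({q | q.2 n = false} ∩ ⋂ k, ⋂ (_ : k < n),
          {q | q.2 k = decide (Real.digits (p q.1).toReal 2 k = 1)})))}
          = {u | ∃ n, Real.digits (p a).toReal 2 n = 1 ∧ u n = false ∧
            ∀ k < n, u k = decide (Real.digits (p a).toReal 2 k = 1)} := by
        ext u
        simp [h, h.ne]
      rw [h3, mu_biased _ ENNReal.toReal_nonneg]
      · exact ENNReal.ofReal_toReal (h.trans_le le_top).ne
      · have := (ENNReal.toReal_lt_toReal (h.trans_le le_top).ne ENNReal.one_ne_top).2 h
        simpa using this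
    · have h3 : {u : ℕ → Bool | (a, u) ∈ {q : α × (ℕ → Bool) | p q.1 = 1} ∪
          ({q | p q.1 < 1} ∩ ⋃ n, ({q | Real.digits (p q.1).toReal 2 n = 1} ∩
          ({q | q.2 n = false} ∩ ⋂ k, ⋂ (_ : k < n),
          {q | q.2 k = decide (Real.digits (p q.1).toReal 2 k = 1)})))} = univ := by
        ext u
        simp [h]
      rw [h3, h, measure_univ]

lemma exists_cond_set {α Om : Type*} [MeasurableSpace α] [MeasurableSpace Om] (nu : Measure Om)
    [IsProbabilityMeasure nu] (Z : Om → α) (hZ : Measurable Z) (E : Set Om) :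
    ∃ G : Set (α × (ℕ → Bool)), MeasurableSet G ∧ ∀ A, MeasurableSet A →
      ((nu.map Z).prod (mu ℕ)) (G ∩ (A ×ˢ univ)) = nu (Z ⁻¹' A ∩ E) := by
  classical
  have hprob : IsProbabilityMeasure (nu.map Z) := Measure.isProbabilityMeasure_map hZ.aemeasurable
  set ρ := nu.map Z with hρ
  set κ := (nu.restrict E).map Z with hκ
  have hle : κ ≤ ρ := Measure.map_mono Measure.restrict_le_self hZ
  have hfin : IsFiniteMeasure κ := isFiniteMeasure_of_le ρ hle
  set p : α → ℝ≥0∞ := fun a => min (κ.rnDeriv ρ a) 1 with hp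
  have hpm : Measurable p := (Measure.measurable_rnDeriv κ ρ).min measurable_const
  obtain ⟨G, hG, hG2⟩ := exists_coin_set p hpm (fun a => min_le_right _ _)
  refine ⟨G, hG, fun A hA => ?_⟩
  rw [Measure.prod_apply (hG.inter (hA.prod MeasurableSet.univ))]
  have h1 : ∀ a, mu ℕ (Prod.mk a ⁻¹' (G ∩ A ×ˢ univ)) = A.indicator p a := by
    intro a
    by_cases ha : a ∈ A
    · rw [indicator_of_mem ha, ← hG2 a]
      congr 1
      ext u
      simp [ha]
    · rw [indicator_of_notMem ha]
      have : Prod.mk a ⁻¹' (G ∩ A ×ˢ (univ : Set (ℕ → Bool))) = ∅ := by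
        ext u
        simp [ha]
      rw [this, measure_empty]
  simp_rw [h1]
  rw [lintegral_indicator hA]
  have h2 : ∫⁻ a in A, p a ∂ρ = ∫⁻ a in A, κ.rnDeriv ρ a ∂ρ := by
    refine lintegral_congr_ae (ae_restrict_of_ae ?_)
    filter_upwards [Measure.rnDeriv_le_one_of_le hle] with a ha
    exact min_eq_left ha
  rw [h2, Measure.setLIntegral_rnDeriv (Measure.absolutelyContinuous_of_le hle), hκ,
    Measure.map_apply hZ hA, Measure.restrict_apply (hZ hA)]

/-! ### The recursion -/

section Rec

variable {W : Type}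

/-- sigma-algebra of a set of coordinates -/
abbrev sg (S : Set (W × ℕ)) : MeasurableSpace (W × ℕ → Bool) :=
  ⨆ i ∈ S, MeasurableSpace.comap (fun x : W × ℕ → Bool => x i) inferInstance

lemma sg_mono {S T : Set (W × ℕ)} (h : S ⊆ T) : sg S ≤ sg T :=
  biSup_mono fun _ hi => h hi

lemma meas_coord {S : Set (W × ℕ)} {i : W × ℕ} (hi : i ∈ S) :
    Measurable[sg S] (fun x : W × ℕ → Bool => x i) := by
  rw [measurable_iff_comap_le]
  exact le_biSup (fun i => MeasurableSpace.comap (fun x : W × ℕ → Bool => x i) inferInstance) hi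

variable [LinearOrder W] [WellFoundedLT W]

open scoped Classical in
/-- The recursively defined random bits. -/
noncomputable def XX (G : ∀ ξ : W, Set ((Set.Iio ξ → Bool) × (ℕ → Bool))) (x : W × ℕ → Bool) :
    W → Bool :=
  (wellFounded_lt (α := W)).fix (C := fun _ => Bool) fun ξ rec =>
    decide ((fun η : Set.Iio ξ => rec η.1 η.2, fun n => x (ξ, n)) ∈ G ξ)

open scoped Classical in
lemma XX_eq (G : ∀ ξ : W, Set ((Set.Iio ξ → Bool) × (ℕ → Bool))) (x : W × ℕ → Bool) (ξ : W) :
    XX G x ξ = decide ((fun η : Set.Iio ξ => XX G x η, fun n => x (ξ, n)) ∈ G ξ) := by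
  conv_lhs => rw [XX, WellFounded.fix_eq]
  rfl

lemma meas_XX (G : ∀ ξ : W, Set ((Set.Iio ξ → Bool) × (ℕ → Bool)))
    (hG : ∀ ξ, MeasurableSet (G ξ)) (ξ : W) :
    Measurable[sg {i | i.1 ≤ ξ}] (fun x => XX G x ξ) := by
  classical
  induction ξ using WellFoundedLT.induction with
  | ind ξ ih =>
    have h1 : Measurable[sg {i | i.1 ≤ ξ}] (fun x : W × ℕ → Bool =>
        ((fun η : Set.Iio ξ => XX G x η, fun n => x (ξ, n)) : (Set.Iio ξ → Bool) × (ℕ → Bool))) := by
      refine Measurable.prodMk ?_ ?_
      · refine @measurable_pi_lambda _ _ _ (sg {i | i.1 ≤ ξ}) _ _ fun η => ?_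
        refine (ih η.1 η.2).mono (sg_mono fun i hi => ?_) le_rfl
        exact le_trans hi (le_of_lt η.2)
      · refine @measurable_pi_lambda _ _ _ (sg {i | i.1 ≤ ξ}) _ _ fun n => ?_
        exact meas_coord (by simp)
    refine @measurable_to_bool _ (sg {i | i.1 ≤ ξ}) _ ?_
    have h2 : (fun x : W × ℕ → Bool => XX G x ξ) ⁻¹' {true} = (fun x : W × ℕ → Bool =>
        ((fun η : Set.Iio ξ => XX G x η, fun n => x (ξ, n)) : (Set.Iio ξ → Bool) × (ℕ → Bool)))
        ⁻¹' G ξ := by
      ext x
      simp only [mem_preimage, mem_singleton_iff]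
      rw [XX_eq, decide_eq_true_iff]
    rw [h2]
    exact h1 (hG ξ)

end Rec

lemma ext_true {ι : Type*} (μ ν : Measure (ι → Bool)) [IsProbabilityMeasure μ]
    [IsProbabilityMeasure ν]
    (h : ∀ F : Finset ι, μ {a | ∀ i ∈ F, a i = true} = ν {a | ∀ i ∈ F, a i = true}) : μ = ν := by
  classical
  refine ext_of_generate_finite {s | ∃ F : Finset ι, s = {a : ι → Bool | ∀ i ∈ F, a i = true}}
    ?_ ?_ ?_ (by simp)
  · refine le_antisymm ?_ ?_
    · refine iSup_le fun i => ?_
      rw [← measurable_iff_comap_le]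
      refine @measurable_to_bool _ (MeasurableSpace.generateFrom _) _ ?_
      refine MeasurableSpace.measurableSet_generateFrom ⟨{i}, ?_⟩
      ext a
      simp
    · refine MeasurableSpace.generateFrom_le ?_
      rintro _ ⟨F, rfl⟩
      have : {a : ι → Bool | ∀ i ∈ F, a i = true} = ⋂ i ∈ F, {a | a i = true} := by
        ext a; simp
      rw [this]
      exact Finset.measurableSet_biInter _ fun i _ =>
        measurableSet_eq_fun (measurable_pi_apply i) measurable_const
  · rintro _ ⟨F, rfl⟩ _ ⟨F', rfl⟩ -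
    refine ⟨F ∪ F', ?_⟩
    ext a
    simp only [mem_inter_iff, mem_ofPred_eq, Finset.mem_union]
    constructor
    · rintro ⟨h1, h2⟩ i (hi | hi)
      · exact h1 i hi
      · exact h2 i hi
    · intro h
      exact ⟨fun i hi => h i (Or.inl hi), fun i hi => h i (Or.inr hi)⟩
  · rintro _ ⟨F, rfl⟩
    exact h F

/-- Noise outsourcing along a well-order. -/
theorem noise' {W : Type} [LinearOrder W] [WellFoundedLT W] {Om : Type*} [MeasurableSpace Om]
    (nu : Measure Om) [IsProbabilityMeasure nu] (E : W → Set Om)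
    (hE : ∀ ξ, MeasurableSet (E ξ)) :
    ∃ E' : W → Set (W × ℕ → Bool), (∀ ξ, MeasurableSet (E' ξ)) ∧
      ∀ F : Finset W, mu (W × ℕ) (⋂ ξ ∈ F, E' ξ) = nu (⋂ ξ ∈ F, E ξ) := by
  classical
  -- the past
  set Z : ∀ ξ : W, Om → (Set.Iio ξ → Bool) := fun ξ om η => decide (om ∈ E η) with hZ
  have hZm : ∀ ξ, Measurable (Z ξ) := by
    intro ξ
    refine measurable_pi_lambda _ fun η => ?_
    refine measurable_to_bool ?_
    have : (fun om => Z ξ om η) ⁻¹' {true} = E η := by
      ext om; simp [hZ]
    rw [this]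
    exact hE _
  have hex := fun ξ => exists_cond_set nu (Z ξ) (hZm ξ) (E ξ)
  choose G hG hG2 using hex
  have hsg : ∀ S : Set (W × ℕ), sg S ≤ MeasurableSpace.pi := by
    intro S
    refine iSup₂_le fun i _ => ?_
    exact (measurable_pi_apply i).comap_le
  have hXm : ∀ ξ, Measurable (fun x => XX G x ξ) := fun ξ =>
    (meas_XX G hG ξ).mono (hsg _) le_rfl
  -- the law of the past
  set P : ∀ ξ : W, (W × ℕ → Bool) → (Set.Iio ξ → Bool) := fun ξ x η => XX G x η with hP
  have hPm : ∀ ξ, Measurable (P ξ) := fun ξ => measurable_pi_lambda _ fun η => hXm η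
  set B : ∀ ξ : W, (W × ℕ → Bool) → (ℕ → Bool) := fun ξ x n => x (ξ, n) with hB
  have hBm : ∀ ξ, Measurable (B ξ) := fun ξ => measurable_pi_lambda _ fun n =>
    measurable_pi_apply _
  have hBlaw : ∀ ξ, (mu (W × ℕ)).map (B ξ) = mu ℕ := by
    intro ξ
    unfold mu
    exact Measure.map_infinitePi_infinitePi_of_inj (f := fun n : ℕ => (ξ, n))
      (fun a b h => (Prod.mk.inj h).2)
  have hind : ∀ ξ, IndepFun (P ξ) (B ξ) (mu (W × ℕ)) := by
    intro ξ
    have h1 : iIndepFun (fun (i : W × ℕ) (x : W × ℕ → Bool) => x i) (mu (W × ℕ)) := by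
      unfold mu
      exact iIndepFun_infinitePi (X := fun _ x => x) (fun _ => measurable_id)
    have h2 := indep_iSup_of_disjoint (m := fun i => MeasurableSpace.comap
      (fun x : W × ℕ → Bool => x i) inferInstance) (fun i => (measurable_pi_apply i).comap_le)
      h1 (S := {i | i.1 < ξ}) (T := {i | i.1 = ξ}) (by
        rw [Set.disjoint_left]
        intro i h3 h4
        exact absurd h4 (ne_of_lt h3))
    rw [IndepFun_iff_Indep]
    refine indep_of_indep_of_le_left (indep_of_indep_of_le_right h2 ?_) ?_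
    · rw [← measurable_iff_comap_le]
      refine @measurable_pi_lambda _ _ _ (sg {i | i.1 = ξ}) _ _ fun n => ?_
      exact meas_coord (by simp)
    · rw [← measurable_iff_comap_le]
      refine @measurable_pi_lambda _ _ _ (sg {i | i.1 < ξ}) _ _ fun η => ?_
      refine (meas_XX G hG η.1).mono (sg_mono fun i hi => ?_) le_rfl
      exact lt_of_le_of_lt hi η.2
  have hjoint : ∀ ξ, (mu (W × ℕ)).map (fun x => (P ξ x, B ξ x))
      = ((mu (W × ℕ)).map (P ξ)).prod (mu ℕ) := by
    intro ξ
    have := (indepFun_iff_map_prod_eq_prod_map_map (hPm ξ).aemeasurable (hBm ξ).aemeasurable).1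
      (hind ξ)
    rw [this, hBlaw]
  -- one step
  have step : ∀ ξ, (mu (W × ℕ)).map (P ξ) = nu.map (Z ξ) → ∀ F : Finset W, (∀ η ∈ F, η < ξ) →
      mu (W × ℕ) (⋂ η ∈ insert ξ F, {x | XX G x η = true}) = nu (⋂ η ∈ insert ξ F, E η) := by
    intro ξ hξ F hF
    set A : Set (Set.Iio ξ → Bool) := {a | ∀ η : Set.Iio ξ, η.1 ∈ F → a η = true} with hA
    have hAm : MeasurableSet A := by
      have : A = ⋂ η : Set.Iio ξ, ⋂ (_ : η.1 ∈ F), {a | a η = true} := by
        ext a; simp [hA]
      have h2 : A = ⋂ η ∈ (F.attach.image fun η => (⟨η.1, hF η.1 η.2⟩ : Set.Iio ξ)),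
          {a : Set.Iio ξ → Bool | a η = true} := by
        ext a
        simp only [hA, mem_ofPred_eq, mem_iInter, Finset.mem_image, Finset.mem_attach, true_and,
          Subtype.exists]
        constructor
        · rintro h η ⟨b, hb, rfl⟩
          exact h _ hb
        · intro h η hη
          exact h η ⟨η.1, hη, rfl⟩
      rw [h2]
      exact Finset.measurableSet_biInter _ fun i _ =>
        measurableSet_eq_fun (measurable_pi_apply i) measurable_const
    have h1 : (⋂ η ∈ insert ξ F, {x | XX G x η = true})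
        = (fun x => (P ξ x, B ξ x)) ⁻¹' (G ξ ∩ A ×ˢ univ) := by
      ext x
      simp only [mem_iInter, Finset.mem_insert, mem_ofPred_eq, mem_preimage, mem_inter_iff,
        mem_prod, mem_univ, and_true]
      constructor
      · intro h
        refine ⟨?_, ?_⟩
        · have := h ξ (Or.inl rfl)
          rw [XX_eq, decide_eq_true_iff] at this
          exact this
        · intro η hη
          exact h η.1 (Or.inr hη)
      · rintro ⟨h1, h2⟩ η (rfl | hη)
        · rw [XX_eq, decide_eq_true_iff]
          exact h1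
        · exact h2 ⟨η, hF η hη⟩ hη
    have h2 : (⋂ η ∈ insert ξ F, E η) = Z ξ ⁻¹' A ∩ E ξ := by
      ext om
      simp only [mem_iInter, Finset.mem_insert, mem_preimage, mem_inter_iff, hA, hZ, mem_ofPred_eq,
        decide_eq_true_iff]
      constructor
      · intro h
        exact ⟨fun η hη => h η.1 (Or.inr hη), h ξ (Or.inl rfl)⟩
      · rintro ⟨h1, h2⟩ η (rfl | hη)
        · exact h2
        · exact h1 ⟨η, hF η hη⟩ hη
    rw [h1, h2, ← hG2 ξ A hAm, ← hξ, ← hjoint,
      Measure.map_apply ((hPm ξ).prodMk (hBm ξ)) ((hG ξ).inter (hAm.prod MeasurableSet.univ))]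
  have law : ∀ ξ, (mu (W × ℕ)).map (P ξ) = nu.map (Z ξ) := by
    intro ξ
    induction ξ using WellFoundedLT.induction with
    | ind ξ ih =>
      have i1 : IsProbabilityMeasure ((mu (W × ℕ)).map (P ξ)) :=
        Measure.isProbabilityMeasure_map (hPm ξ).aemeasurable
      have i2 : IsProbabilityMeasure (nu.map (Z ξ)) :=
        Measure.isProbabilityMeasure_map (hZm ξ).aemeasurable
      refine ext_true _ _ fun F => ?_
      have hFm : MeasurableSet {a : Set.Iio ξ → Bool | ∀ i ∈ F, a i = true} := by
        have : {a : Set.Iio ξ → Bool | ∀ i ∈ F, a i = true} = ⋂ i ∈ F, {a | a i = true} := by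
          ext a; simp
        rw [this]
        exact Finset.measurableSet_biInter _ fun i _ =>
          measurableSet_eq_fun (measurable_pi_apply i) measurable_const
      rw [Measure.map_apply (hPm ξ) hFm, Measure.map_apply (hZm ξ) hFm]
      rcases F.eq_empty_or_nonempty with rfl | hne
      · simp
      · set m := F.max' hne with hm
        have h3 := step m.1 (ih m.1 m.2) ((F.erase m).image Subtype.val) (by
          intro η hη
          rw [Finset.mem_image] at hη
          obtain ⟨a, ha, rfl⟩ := hη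
          rw [Finset.mem_erase] at ha
          exact lt_of_le_of_ne (F.le_max' a ha.2) (fun h => ha.1 (Subtype.ext h)))
        have h4 : insert m.1 ((F.erase m).image Subtype.val) = F.image Subtype.val := by
          rw [← Finset.image_insert, Finset.insert_erase (F.max'_mem hne)]
        rw [h4] at h3
        have h5 : P ξ ⁻¹' {a | ∀ i ∈ F, a i = true}
            = ⋂ η ∈ F.image Subtype.val, {x | XX G x η = true} := by
          ext x
          simp only [mem_preimage, mem_ofPred_eq, mem_iInter, Finset.mem_image, hP]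
          constructor
          · rintro h η ⟨a, ha, rfl⟩
            exact h a ha
          · intro h i hi
            exact h i.1 ⟨i, hi, rfl⟩
        have h6 : Z ξ ⁻¹' {a | ∀ i ∈ F, a i = true} = ⋂ η ∈ F.image Subtype.val, E η := by
          ext om
          simp only [mem_preimage, mem_ofPred_eq, mem_iInter, Finset.mem_image, hZ,
            decide_eq_true_iff]
          constructor
          · rintro h η ⟨a, ha, rfl⟩
            exact h a ha
          · intro h i hi
            exact h i.1 ⟨i, hi, rfl⟩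
        rw [h5, h6, h3]
  refine ⟨fun ξ => {x | XX G x ξ = true}, fun ξ => ?_, fun F => ?_⟩
  · exact measurableSet_eq_fun (hXm ξ) measurable_const
  · rcases F.eq_empty_or_nonempty with rfl | hne
    · simp
    · have h1 := step (F.max' hne) (law _) (F.erase (F.max' hne)) (by
        intro η hη
        rw [Finset.mem_erase] at hη
        exact lt_of_le_of_ne (F.le_max' η hη.2) hη.1)
      rwa [Finset.insert_erase (F.max'_mem hne)] at h1

/-- Noise outsourcing, as requested (the countability of initial segments is not needed). -/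
theorem noise {W : Type} [LinearOrder W] [WellFoundedLT W]
    (_hW : ∀ a : W, (Set.Iio a).Countable) {Om : Type*} [MeasurableSpace Om]
    (nu : Measure Om) [IsProbabilityMeasure nu] (E : W → Set Om)
    (hE : ∀ ξ, MeasurableSet (E ξ)) :
    ∃ E' : W → Set (W × ℕ → Bool), (∀ ξ, MeasurableSet (E' ξ)) ∧
      ∀ F : Finset W, mu (W × ℕ) (⋂ ξ ∈ F, E' ξ) = nu (⋂ ξ ∈ F, E ξ) :=
  noise' nu E hE

end Pool.Agent.helper79.Tw
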